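import Pool.Agent.U4.DG.Fin
import Pool.Agent.R838.TW.Form

/-!
# The derivatives of `Λ(E/K, s)`: almost all zeros are on the line and equally spaced

Let `E` be an elliptic curve over `ℚ` of conductor `N`, `K` an abelian number field of conductor prime to `N` (given by
its group `G` of Dirichlet characters, `m = [K : ℚ] = card G`), and `Λ(s) = Λ(E/K, s)` the completed L-function of `E`
over `K`. The Riemann hypothesis for `L(E/K, s)` implies that all zeros of all derivatives `Λ^(n)` are on the line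
`Re s = 1`, and then their distances even out as `n` grows (Farmer and Rhoades). The mean distance of the zeros at
height `y` is `π / (m log y)`.

We prove unconditionally, for every `E`, every `K` and all `ε > 0`, `A`: there are constants `c, C > 0` such that for
all `T ≥ 2` and ALL orders `n ≤ A log T` at most the proportion `C exp (-c n)` of the zeros of `Λ^(n)` with imaginary
part in `(T, 2T]` are irregular, where a zero `s` is called regular if it is simple, on the line, and followed by a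
simple zero on the line at the distance `(1 + O(ε)) π / (m log (Im s))`, with no zeros in between.

Proof: `Λ` is a product of the L-functions of the twists of the newform of `E` by Dirichlet characters; at all heights
except for a set of proportion `exp (-c n)` it looks at the scale `n / log T` like `exp (m z log T)` plus its reflection
(mollified second moments near the line; project GD2 of helper671, `Pool.Agent.Y671`, and `Pool.Agent.R838.TW`). New here
(`Pool.Agent.U4.DG`, with `Pool.Agent.U4.UH`) are the gaps: `Λ^(n)` is on the line the real part of one half of Cauchy's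
integral over a circle of radius of order `n / log T`, and by the saddle point method the phase of this half rotates
with constant speed.
-/

set_option autoImplicit false

open Complex UpperHalfPlane MatrixGroups CongruenceSubgroup
open scoped ComplexConjugate

namespace Pool.Agent.Results.MP_fb225e_nt.DerivativeSpacings

/-! ### Elliptic curves over `ℚ` and abelian number fields -/

/-- The coefficient `a_p` of `E : y² = x³ + a x + b` at a prime `p ∤ 2 (4a³ + 27b²)`: `p` minus the
number of pairs `(x, y)` modulo `p` with `y² ≡ x³ + a x + b (mod p)`. -/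
noncomputable def ap (a b : ℤ) (p : ℕ) : ℤ :=
  (p : ℤ) - (((Finset.range p ×ˢ Finset.range p).filter
    (fun xy : ℕ × ℕ => (p : ℤ) ∣ (xy.2 : ℤ) ^ 2 -
      ((xy.1 : ℤ) ^ 3 + a * (xy.1 : ℤ) + b))).card : ℤ)

/-- The `n`-th Fourier coefficient of `f`. -/
noncomputable def coef {N : ℕ} (f : CuspForm (Gamma0 N : Subgroup (GL (Fin 2) ℝ)) 2) (n : ℕ) : ℂ :=
  (qExpansion 1 f).coeff n

/-- `f ∈ S_2(Γ₀(N))` is the newform of the elliptic curve `E : y² = x³ + a x + b` of conductor `N` and
root number `w`: the Fourier coefficients `c(n)` of `f` are real with `c(1) = 1`, they satisfy the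
Hecke relations `c(mn) = c(m) c(n)` for coprime `m`, `n` and `c(p^(j+2)) = c(p) c(p^(j+1)) - p c(p^j)`
(without the last term if `p ∣ N`), `f(-1/(Nτ)) = -w N τ² f(τ)`, `c(p) = a_p(E)` for all primes
`p ∤ 2 (4a³ + 27b²)`, `|c(p)| ≤ 2 √p` for all `p ∤ N` (Hasse) and `c(p) = 0, 1, -1` for `p ∣ N`. -/
structure IsFormOf (a b : ℤ) (N : ℕ) (f : CuspForm (Gamma0 N : Subgroup (GL (Fin 2) ℝ)) 2) (w : ℝ) :
    Prop where
  one : coef f 1 = 1
  real : ∀ n, (coef f n).im = 0
  mul : ∀ m n : ℕ, Nat.Coprime m n → coef f (m * n) = coef f m * coef f n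
  pow : ∀ p j : ℕ, p.Prime → coef f (p ^ (j + 2)) = coef f p * coef f (p ^ (j + 1)) -
      (if p ∣ N then 0 else (p : ℂ) * coef f (p ^ j))
  sign : w = 1 ∨ w = -1
  fricke : ∀ τ τ' : ℍ, (τ' : ℂ) * ((N : ℂ) * (τ : ℂ)) = -1 →
    f τ' = -(w : ℂ) * (N : ℂ) * (τ : ℂ) ^ 2 * f τ
  points : ∀ p : ℕ, p.Prime → ¬ (p : ℤ) ∣ 2 * (4 * a ^ 3 + 27 * b ^ 2) → coef f p = (ap a b p : ℂ)
  good : ∀ p : ℕ, p.Prime → ¬ p ∣ N → ‖coef f p‖ ≤ 2 * Real.sqrt p
  bad : ∀ p : ℕ, p.Prime → p ∣ N → coef f p = 0 ∨ coef f p = 1 ∨ coef f p = -1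

/-- The completed L-function of the twist of `E` by `χ` modulo `q`, for `Re s > 3/2`:
`(√N q / 2π)^s Γ(s) ∑ c(n) χ(n) n^(-s)`. -/
noncomputable def twist {N : ℕ} (f : CuspForm (Gamma0 N : Subgroup (GL (Fin 2) ℝ)) 2) {q : ℕ}
    (χ : DirichletCharacter ℂ q) (s : ℂ) : ℂ :=
  ((Real.sqrt N * q / (2 * Real.pi) : ℝ) : ℂ) ^ s * Complex.Gamma s *
    ∑' n : ℕ, coef f (n + 1) * χ ((n + 1 : ℕ) : ZMod q) * ((n + 1 : ℕ) : ℂ) ^ (-s)

/-- `Λ = Λ(E/K, s)`, where `K` is the abelian number field with the group `G` of Dirichlet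
characters: `Λ` is entire and, for `Re s > 3/2`, it is the product over `χ` in `G` of the completed
L-functions of the twists of `E` by the primitive character associated with `χ`. -/
def IsCompleted {M : ℕ} (G : Subgroup (DirichletCharacter ℂ M)) [Fintype G] {N : ℕ}
    (f : CuspForm (Gamma0 N : Subgroup (GL (Fin 2) ℝ)) 2) (Λ : ℂ → ℂ) : Prop :=
  Differentiable ℂ Λ ∧ ∀ s : ℂ, 3 / 2 < s.re →
    Λ s = ∏ χ : G, twist f (χ : DirichletCharacter ℂ M).primitiveCharacter s

/-! ### Zeros of the derivatives -/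

/-- The zeros of the `n`-th derivative of `Λ` with imaginary part in `(T, 2T]`. -/
def Zer (Λ : ℂ → ℂ) (n : ℕ) (T : ℝ) : Set ℂ := {s | iteratedDeriv n Λ s = 0 ∧ T < s.im ∧ s.im ≤ 2 * T}

/-- The zero `s` of the `n`-th derivative is regular: it is simple and on the line `Re s = 1`, and the next zero above
it is again simple and on the line, at a distance `g` with `|g m log (Im s) / π - 1| ≤ ε`; `s` and `s + i g` are the
only zeros with imaginary part in `[Im s, Im s + g]`. -/
def Regular (Λ : ℂ → ℂ) (m ε : ℝ) (n : ℕ) (s : ℂ) : Prop :=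
  s.re = 1 ∧ iteratedDeriv (n + 1) Λ s ≠ 0 ∧ ∃ g : ℝ, 0 < g ∧ |g * (m * Real.log s.im) / Real.pi - 1| ≤ ε ∧
    iteratedDeriv n Λ (s + g * Complex.I) = 0 ∧ iteratedDeriv (n + 1) Λ (s + g * Complex.I) ≠ 0 ∧
    ∀ z : ℂ, iteratedDeriv n Λ z = 0 → s.im ≤ z.im → z.im ≤ s.im + g → z = s ∨ z = s + g * Complex.I

/-- The zeros which are not regular. -/
def Irregular (Λ : ℂ → ℂ) (m ε : ℝ) (n : ℕ) (T : ℝ) : Set ℂ := {s | s ∈ Zer Λ n T ∧ ¬ Regular Λ m ε n s}

/-- The number of points of `A`, each counted with its multiplicity as a zero of `Λ^(n)`. -/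
noncomputable def num (Λ : ℂ → ℂ) (n : ℕ) (A : Set ℂ) : ℕ :=
  ∑ᶠ s ∈ A, analyticOrderNatAt (iteratedDeriv n Λ) s

/-- **Main theorem.** Let `E : y² = x³ + a x + b` be an elliptic curve over `ℚ` with newform `f` of level
`N`, and let `K` be an abelian number field of conductor prime to `N`, given by its group `G` of Dirichlet
characters modulo `M`; its degree is `card G`.  Then `Λ = Λ(E/K, s)` exists, is unique and has a functional
equation. For all `ε > 0` and `A` there are `c, C > 0` such that for all `n` and all `T ≥ 2` with `n ≤ A log T` at most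
the proportion `C exp (-c n)` of the zeros of `Λ^(n)` with imaginary part in `(T, 2T]`, counted with
multiplicity, are irregular, i.e. off the line `Re s = 1`, or multiple, or not followed by a simple zero on the line at
the distance `(1 + O(ε)) π / (card G log (Im s))` with no zeros in between; and the number of the irregular zeros is at
most `C exp (-c n) T log T`. -/
theorem result : ∀ (a b : ℤ) (N : ℕ) [NeZero N] (f : CuspForm (Gamma0 N : Subgroup (GL (Fin 2) ℝ)) 2) (w : ℝ),
    4 * a ^ 3 + 27 * b ^ 2 ≠ 0 → IsFormOf a b N f w →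
    ∀ (M : ℕ) [NeZero M] (G : Subgroup (DirichletCharacter ℂ M)) [Fintype G], Nat.Coprime M N →
    ∃ Λ : ℂ → ℂ, IsCompleted G f Λ ∧ (∀ Λ' : ℂ → ℂ, IsCompleted G f Λ' → Λ' = Λ) ∧
      (∃ W : ℂ, ‖W‖ = 1 ∧ ∀ s : ℂ, Λ (2 - s) = W * conj (Λ (conj s))) ∧
      (∀ (n : ℕ) (T : ℝ), 0 ≤ T → (Zer Λ n T).Finite) ∧
      ∀ ε A : ℝ, 0 < ε → ∃ c C : ℝ, 0 < c ∧ 0 < C ∧ ∀ (n : ℕ) (T : ℝ), 2 ≤ T → (n : ℝ) ≤ A * Real.log T →
        (num Λ n (Irregular Λ (Fintype.card G) ε n T) : ℝ) ≤
          C * Real.exp (-(c * n)) * num Λ n (Zer Λ n T) ∧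
        (num Λ n (Irregular Λ (Fintype.card G) ε n T) : ℝ) ≤
          C * Real.exp (-(c * n)) * T * Real.log T := by
  intro a b N _ f w _ hf M _ G _ hco
  have hf' : Pool.Agent.W169.HF.IsForm N f w :=
    { one := hf.one
      real := hf.real
      mul := hf.mul
      pow := hf.pow
      sign := hf.sign
      fricke := hf.fricke
      good := hf.good
      bad := fun p hp hpN => by
        have h1 : (1 : ℝ) ≤ Real.sqrt p := by
          rw [Real.one_le_sqrt]
          exact_mod_cast hp.one_le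
        have h2 : ‖coef f p‖ ≤ 1 := by
          rcases hf.bad p hp hpN with h | h | h <;> simp [h]
        exact h2.trans h1 }
  obtain ⟨X, v, hP, hv, hX⟩ := Pool.Agent.R838.TW.pl_ab G hf' hco
  obtain ⟨Λ, h1, h2, h3, h4⟩ := Pool.Agent.R838.TW.exists_Lam hP 1 (G := Pool.Agent.W355.UN.prodE G f) hv (σ := 3 / 2)
    (fun s hs => by rw [Complex.ofReal_one]; exact hX s hs)
  have hκ : (1 : ℝ) / 2 ≤ Fintype.card G := by
    have h5 : (1 : ℝ) ≤ Fintype.card G := by exact_mod_cast (Fintype.card_pos : 0 < Fintype.card G)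
    linarith
  refine ⟨Λ, ⟨h1, h2⟩, fun Λ' h' => Pool.Agent.R838.TW.uniq h1 h'.1 ⟨3 / 2, h2⟩ ⟨3 / 2, h'.2⟩, ?_, ?_⟩
  · obtain ⟨W, hW, h7⟩ := h3
    refine ⟨W, hW, fun s => ?_⟩
    have h8 := h7 s
    rwa [Complex.ofReal_one, mul_one] at h8
  · obtain ⟨h5, h6⟩ := Pool.Agent.U4.DG.PL_deriv_spacing hκ h4 hv
    refine ⟨h5, fun ε A hε => ?_⟩
    obtain ⟨c, C, hc, hC, h7⟩ := h6 ε A hε
    exact ⟨c, C, hc, hC, fun n T hT hn => h7 n T hT hn⟩

end Pool.Agent.Results.MP_fb225e_nt.DerivativeSpacings
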