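import Pool.Agent.U4.UH.EllF

/-!
# The zeros of the high derivatives of `Λ(E/K, s)` are equally spaced

Let `E` be an elliptic curve over a number field `K` of degree `d`, `L(E/K, s)` its Hasse-Weil L-function and
`Λ = A^(s/2) ((2π)^(-s) Γ(s))^d L(E/K, s)` the completed function. The Riemann hypothesis for `L(E/K, s)` implies
that all zeros of all derivatives `Λ^(n)` are on the line `Re s = 1`.

We prove: for every `κ` below a limit `κ*` and every `ε > 0` there is ONE constant `M` such that for ALL curves `E`, all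
number fields `K`, all orders `n ≥ M d` and all heights `y` with `A (1 + |y|)^(2 d) ≤ exp (κ n)` the zeros of `Λ^(n)`
at height `y` are simple and on the line, and without any exception equally spaced: the distance to the next zero is
`(1 + O(ε)) 2π / log (A (n/d + |y|)^(2 d))`. Here

* (I) `κ* = 4/3`, for all elliptic curves over all number fields whose L-function has the properties conjectured by
  Hasse and Weil (`Λ` entire, of finite order, `Λ(s) = ± Λ(2 - s)`);
* (II) `κ* = 4`, without any hypothesis, for all `E/ℚ` of conductor `N` and all abelian number fields `K` of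
  conductor prime to `N`.

The starting hand-in `UniformHeatDerivatives` has the first statement (simple, on the line) with an unspecified
constant; nothing was known on the distances. Proof: `Pool.Agent.U4.UH` (`main`, `main_gap`, `ell_abs`): on the line the
`n`-th derivative is twice the real part of a half Cauchy integral whose phase at the saddle point rotates at the rate of
the logarithmic derivative of the conductor and gamma factor; the error terms are controlled for the phase and its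
derivative. The membership of the L-functions in the class `UL` is from the starting files
(`Pool.Agent.TH839.UH`, `Pool.Agent.W355.UN`).
-/

set_option autoImplicit false

open Complex UpperHalfPlane MatrixGroups CongruenceSubgroup NumberField IsDedekindDomain
open scoped ComplexConjugate

namespace Pool.Agent.Results.MP_fb225e_nt.EquallySpaced

/-! ### Hasse-Weil L-functions of elliptic curves over number fields -/

/-- `W v` is, for every finite place `v`, an integral model of `E` with discriminant minimal at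
`v`. -/
def MinimalModels {K : Type} [Field K] [NumberField K] (E : WeierstrassCurve K)
    (W : HeightOneSpectrum (𝓞 K) → WeierstrassCurve (𝓞 K)) : Prop :=
  ∀ v : HeightOneSpectrum (𝓞 K),
    (∃ C : WeierstrassCurve.VariableChange K, C • (W v).map (algebraMap (𝓞 K) K) = E) ∧
    ∀ W' : WeierstrassCurve (𝓞 K),
      (∃ C : WeierstrassCurve.VariableChange K, C • W'.map (algebraMap (𝓞 K) K) = E) →
      ∀ n : ℕ, (W v).Δ ∈ v.asIdeal ^ n → W'.Δ ∈ v.asIdeal ^ n

open Classical in
/-- The Euler factor at `v`, `(1 - a_v Nv^{-s} + Nv^{1-2s})⁻¹` if the reduction at `v` is good and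
`(1 - a_v Nv^{-s})⁻¹` if it is bad, where `a_v` is `Nv` minus the number of affine points of the
reduction of `W v`. -/
noncomputable def localFactor {K : Type} [Field K] [NumberField K]
    (W : HeightOneSpectrum (𝓞 K) → WeierstrassCurve (𝓞 K)) (v : HeightOneSpectrum (𝓞 K))
    (s : ℂ) : ℂ :=
  (1 - ((Ideal.absNorm v.asIdeal : ℂ)
        - (Nat.card {xy : (𝓞 K ⧸ v.asIdeal) × (𝓞 K ⧸ v.asIdeal) //
            ((W v).map (Ideal.Quotient.mk v.asIdeal)).toAffine.Equation xy.1 xy.2} : ℂ))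
        * (Ideal.absNorm v.asIdeal : ℂ) ^ (-s)
    + (if (W v).Δ ∈ v.asIdeal then 0 else (Ideal.absNorm v.asIdeal : ℂ))
        * (Ideal.absNorm v.asIdeal : ℂ) ^ (-2 * s))⁻¹

/-- The `L`-function `L(E/K, s)` in the half-plane of convergence, as the Euler product over all
finite places. -/
noncomputable def LSeries {K : Type} [Field K] [NumberField K]
    (W : HeightOneSpectrum (𝓞 K) → WeierstrassCurve (𝓞 K)) (s : ℂ) : ℂ :=
  ∏' v : HeightOneSpectrum (𝓞 K), localFactor W v s

/-- `Λ` is the completed L-function `A^(s/2) ((2π)^(-s) Γ(s))^[K : ℚ] L(E/K, s)`, and it has the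
properties conjectured by Hasse and Weil: it is entire, of finite order, and `Λ(s) = ± Λ(2 - s)`. -/
structure HasseWeil {K : Type} [Field K] [NumberField K]
    (W : HeightOneSpectrum (𝓞 K) → WeierstrassCurve (𝓞 K)) (A : ℝ) (Λ : ℂ → ℂ) : Prop where
  one_le : 1 ≤ A
  entire : Differentiable ℂ Λ
  order : ∃ c ρ : ℝ, ∀ s : ℂ, ‖Λ s‖ ≤ Real.exp (c * (1 + ‖s‖) ^ ρ)
  fe : ∃ w : ℝ, (w = 1 ∨ w = -1) ∧ ∀ s : ℂ, Λ s = w * Λ (2 - s)
  eq : ∃ σ : ℝ, ∀ s : ℂ, σ ≤ s.re → Λ s = (A : ℂ) ^ (s / 2) *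
    ((2 * (Real.pi : ℂ)) ^ (-s) * Gamma s) ^ Module.finrank ℚ K * LSeries W s

/-! ### Elliptic curves over `ℚ` and abelian number fields -/

/-- The coefficient `a_p` of `E : y² = x³ + a x + b` at a prime `p ∤ 2 (4a³ + 27b²)`: `p` minus the
number of pairs `(x, y)` modulo `p` with `y² ≡ x³ + a x + b (mod p)`. -/
noncomputable def ap (a b : ℤ) (p : ℕ) : ℤ :=
  (p : ℤ) - (((Finset.range p ×ˢ Finset.range p).filter
    (fun xy : ℕ × ℕ => (p : ℤ) ∣ (xy.2 : ℤ) ^ 2 -
      ((xy.1 : ℤ) ^ 3 + a * (xy.1 : ℤ) + b))).card : ℤ)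

/-- The `n`-th Fourier coefficient of `f`. -/
noncomputable def coef {N : ℕ} (f : CuspForm (Gamma0 N : Subgroup (GL (Fin 2) ℝ)) 2) (n : ℕ) : ℂ :=
  (qExpansion 1 f).coeff n

/-- `f ∈ S_2(Γ₀(N))` is the newform of the elliptic curve `E : y² = x³ + a x + b` of conductor `N` and
root number `w`: the Fourier coefficients `c(n)` of `f` are real with `c(1) = 1`, they satisfy the
Hecke relations `c(mn) = c(m) c(n)` for coprime `m`, `n` and `c(p^(j+2)) = c(p) c(p^(j+1)) - p c(p^j)`
(without the last term if `p ∣ N`), `f(-1/(Nτ)) = -w N τ² f(τ)`, `c(p) = a_p(E)` for all primes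
`p ∤ 2 (4a³ + 27b²)`, `|c(p)| ≤ 2 √p` for all `p ∤ N` (Hasse) and `c(p) = 0, 1, -1` for `p ∣ N`. -/
structure IsFormOf (a b : ℤ) (N : ℕ) (f : CuspForm (Gamma0 N : Subgroup (GL (Fin 2) ℝ)) 2) (w : ℝ) :
    Prop where
  one : coef f 1 = 1
  real : ∀ n, (coef f n).im = 0
  mul : ∀ m n : ℕ, Nat.Coprime m n → coef f (m * n) = coef f m * coef f n
  pow : ∀ p j : ℕ, p.Prime → coef f (p ^ (j + 2)) = coef f p * coef f (p ^ (j + 1)) -
      (if p ∣ N then 0 else (p : ℂ) * coef f (p ^ j))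
  sign : w = 1 ∨ w = -1
  fricke : ∀ τ τ' : ℍ, (τ' : ℂ) * ((N : ℂ) * (τ : ℂ)) = -1 →
    f τ' = -(w : ℂ) * (N : ℂ) * (τ : ℂ) ^ 2 * f τ
  points : ∀ p : ℕ, p.Prime → ¬ (p : ℤ) ∣ 2 * (4 * a ^ 3 + 27 * b ^ 2) → coef f p = (ap a b p : ℂ)
  good : ∀ p : ℕ, p.Prime → ¬ p ∣ N → ‖coef f p‖ ≤ 2 * Real.sqrt p
  bad : ∀ p : ℕ, p.Prime → p ∣ N → coef f p = 0 ∨ coef f p = 1 ∨ coef f p = -1

/-- The completed L-function of the twist of `E` by `χ` modulo `q`, for `Re s > 3/2`:
`(√N q / 2π)^s Γ(s) ∑ c(n) χ(n) n^(-s)`. -/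
noncomputable def twist {N : ℕ} (f : CuspForm (Gamma0 N : Subgroup (GL (Fin 2) ℝ)) 2) {q : ℕ}
    (χ : DirichletCharacter ℂ q) (s : ℂ) : ℂ :=
  ((Real.sqrt N * q / (2 * Real.pi) : ℝ) : ℂ) ^ s * Complex.Gamma s *
    ∑' n : ℕ, coef f (n + 1) * χ ((n + 1 : ℕ) : ZMod q) * ((n + 1 : ℕ) : ℂ) ^ (-s)

section
variable {M : ℕ} (G : Subgroup (DirichletCharacter ℂ M)) [Fintype G]

/-- `Λ = Λ(E/K, s)`, where `K` is the abelian number field with the group `G` of Dirichlet
characters: `Λ` is entire and, for large real part, it is the product over `χ` in `G` of the completed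
L-functions of the twists of `E` by the primitive character associated with `χ`. -/
def IsCompleted {N : ℕ} (f : CuspForm (Gamma0 N : Subgroup (GL (Fin 2) ℝ)) 2) (Λ : ℂ → ℂ) : Prop :=
  Differentiable ℂ Λ ∧ ∃ σ : ℝ, ∀ s : ℂ, σ ≤ s.re →
    Λ s = ∏ χ : G, twist f (χ : DirichletCharacter ℂ M).primitiveCharacter s

/-- The conductor `A = ∏ N f_χ² = N^[K : ℚ] disc(K)²` of `L(E/K, s)`. -/
noncomputable def condA (N : ℕ) : ℝ :=
  ∏ χ : G, ((N : ℝ) * ((χ : DirichletCharacter ℂ M).conductor : ℝ) ^ 2)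

end

/-! ### Equally spaced zeros -/

/-- The zeros of `Λ^(n)` at the heights `y` with `A (1 + |y|)^(2 d) ≤ exp (κ n)` are on the line `Re s = 1`, simple, and
equally spaced up to the relative error `ε`, the distance being `2π / log (A (n/d + |y|)^(2 d))`. -/
structure Spaced (κ ε : ℝ) (d : ℕ) (A : ℝ) (Λ : ℂ → ℂ) (n : ℕ) : Prop where
  zeros : ∀ s : ℂ, Real.log (A * (1 + |s.im|) ^ (2 * d)) ≤ κ * n → iteratedDeriv n Λ s = 0 →
    s.re = 1 ∧ iteratedDeriv (n + 1) Λ s ≠ 0
  next : ∀ y : ℝ, Real.log (A * (1 + |y|) ^ (2 * d)) ≤ κ * n → ∃ y' : ℝ, y ≤ y' ∧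
    (y' - y) * Real.log (A * (n / d + |y|) ^ (2 * d)) / (2 * Real.pi) ≤ 1 + ε ∧
      iteratedDeriv n Λ (1 + y' * Complex.I) = 0
  gap : ∀ y : ℝ, Real.log (A * (1 + |y|) ^ (2 * d)) ≤ κ * n → iteratedDeriv n Λ (1 + y * Complex.I) = 0 →
    ∃ y' : ℝ, y < y' ∧ iteratedDeriv n Λ (1 + y' * Complex.I) = 0 ∧
      (∀ v : ℝ, y < v → v < y' → iteratedDeriv n Λ (1 + v * Complex.I) ≠ 0) ∧
      |(y' - y) * Real.log (A * (n / d + |y|) ^ (2 * d)) / (2 * Real.pi) - 1| ≤ ε

/-- **Main theorem.**  Let `ε > 0`.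

* (I) For every `κ < 4/3` there is `M` such that for every elliptic curve over every number field `K` for which the
  conjecture of Hasse and Weil holds and all `n ≥ M [K : ℚ]` the zeros of `Λ^(n)` are `Spaced`.
* (II) For every `κ < 4` there is `M₀` such that for every elliptic curve over `ℚ` of conductor `N` and every abelian
  number field of conductor prime to `N` (group of characters `G` modulo `M`, degree `Fintype.card G`) and all
  `n ≥ M₀ [K : ℚ]` the zeros of `Λ^(n)` are `Spaced`, unconditionally. -/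
theorem result : ∀ ε : ℝ, 0 < ε →
    (∀ κ : ℝ, κ < 4 / 3 → ∃ M : ℝ, ∀ (K : Type) [Field K] [NumberField K] (E : WeierstrassCurve K) [E.IsElliptic]
      (W : HeightOneSpectrum (𝓞 K) → WeierstrassCurve (𝓞 K)), MinimalModels E W →
      ∀ (A : ℝ) (Λ : ℂ → ℂ), HasseWeil W A Λ → ∀ n : ℕ, M * Module.finrank ℚ K ≤ n →
        Spaced κ ε (Module.finrank ℚ K) A Λ n) ∧
    (∀ κ : ℝ, κ < 4 → ∃ M₀ : ℝ, ∀ (a b : ℤ) (N : ℕ) [NeZero N]
      (f : CuspForm (Gamma0 N : Subgroup (GL (Fin 2) ℝ)) 2) (w : ℝ), 4 * a ^ 3 + 27 * b ^ 2 ≠ 0 → IsFormOf a b N f w →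
      ∀ (M : ℕ) [NeZero M] (G : Subgroup (DirichletCharacter ℂ M)) [Fintype G], Nat.Coprime M N →
      ∃ Λ : ℂ → ℂ, IsCompleted G f Λ ∧ (∀ Λ' : ℂ → ℂ, IsCompleted G f Λ' → Λ' = Λ) ∧
        (∃ W : ℂ, ‖W‖ = 1 ∧ ∀ s : ℂ, Λ (2 - s) = W * conj (Λ (conj s))) ∧
        ∀ n : ℕ, M₀ * Fintype.card G ≤ n → Spaced κ ε (Fintype.card G) (condA G N) Λ n) := by
  intro ε hε
  refine ⟨fun κ hκ => ?_, fun κ hκ => ?_⟩
  · obtain ⟨M, hM, H1⟩ := Pool.Agent.U4.UH.eqsp_num hκ hε
    refine ⟨M, ?_⟩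
    intro K _ _ E _ W _ A Λ h n hn
    classical
    have hk : Pool.Agent.TH839.UH.KL
        (fun v : HeightOneSpectrum (𝓞 K) => ((Ideal.absNorm v.asIdeal : ℂ)
          - (Nat.card {xy : (𝓞 K ⧸ v.asIdeal) × (𝓞 K ⧸ v.asIdeal) //
            ((W v).map (Ideal.Quotient.mk v.asIdeal)).toAffine.Equation xy.1 xy.2} : ℂ)))
        (fun v => if (W v).Δ ∈ v.asIdeal then 0 else (Ideal.absNorm v.asIdeal : ℂ)) A Λ := by
      refine ⟨fun v => Pool.Agent.TH839.UH.trace_le v _, fun v => ?_, fun v => ?_, fun v => ?_,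
        h.one_le, h.entire, h.order, h.fe, ?_⟩
      · show ‖(if (W v).Δ ∈ v.asIdeal then 0 else (Ideal.absNorm v.asIdeal : ℂ))‖ ≤
          ((Ideal.absNorm v.asIdeal : ℕ) : ℝ)
        split_ifs
        · rw [norm_zero]
          exact Nat.cast_nonneg _
        · rw [Complex.norm_natCast]
      · show conj ((Ideal.absNorm v.asIdeal : ℂ) - ((_ : ℕ) : ℂ)) = _
        rw [map_sub, Complex.conj_natCast, Complex.conj_natCast]
      · show conj (if (W v).Δ ∈ v.asIdeal then 0 else (Ideal.absNorm v.asIdeal : ℂ)) = _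
        split_ifs
        · rw [map_zero]
        · rw [Complex.conj_natCast]
      · obtain ⟨σ, hσ⟩ := h.eq
        refine ⟨σ, fun s hs => ?_⟩
        rw [hσ s hs]
        congr 1
        unfold LSeries Pool.Agent.TH839.UH.EL
        refine tprod_congr fun v => ?_
        unfold localFactor Pool.Agent.TH839.UH.NF.gv Pool.Agent.H921R2.TatePole.nm
        congr 1
        ring
    have hfl := H1 K _ _ A Λ hk n hn
    exact ⟨hfl.zeros, hfl.next, hfl.gap⟩
  · obtain ⟨M₀, hM, H2⟩ := Pool.Agent.U4.UH.eqsp_ab hκ hε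
    refine ⟨M₀, ?_⟩
    intro a b N _ f w _ hf M _ G _ hco
    have hf' : Pool.Agent.W169.HF.IsForm N f w :=
      { one := hf.one
        real := hf.real
        mul := hf.mul
        pow := hf.pow
        sign := hf.sign
        fricke := hf.fricke
        good := hf.good
        bad := fun p hp hpN => by
          have h1 : (1 : ℝ) ≤ Real.sqrt p := by
            rw [Real.one_le_sqrt]
            exact_mod_cast hp.one_le
          have h2 : ‖coef f p‖ ≤ 1 := by
            rcases hf.bad p hp hpN with h | h | h <;> simp [h]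
          exact h2.trans h1 }
    obtain ⟨Λ, h1, h2, h3, h4⟩ := H2 N f w M G hf' hco
    refine ⟨Λ, ⟨h1, h2⟩, fun Λ' h' => Pool.Agent.W355.UN.Pk.uniq h1 h'.1 h2 h'.2, h3, fun n hn => ?_⟩
    have h5 := h4 n hn
    exact ⟨h5.zeros, h5.next, h5.gap⟩

end Pool.Agent.Results.MP_fb225e_nt.EquallySpaced
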