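import Pool.Agent.U156.SJ.Re

/-!
# Jensen polynomials of the L-functions of elliptic curves over abelian number fields: the constant in the range of
hyperbolicity

`E : y² = x³ + a x + b` is an elliptic curve over `ℚ`, `K` an abelian number field whose conductor is prime to the
conductor of `E`, and `Λ(s) = Λ(E/K, s)` is the completed L-function of `E` over `K`, with the functional equation
`s → 2 - s`.  It is real on the real axis.  Put `F(z) = Λ(1 + z)` and write `F(z) = z^r ∑ γ(k) z^(2k) / k!`, `r ≤ 1`.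

We prove that for every `κ > [K : ℚ] / 4` the Jensen polynomials `J^{d,n}(X) = ∑ binom(d,j) γ(n+j) X^j` have degree `d`
and only real negative zeros for all sufficiently large `n` and all `d ≤ exp(n / κ)`, that is for
`d ≤ exp((4 / [K : ℚ] - ε) n)`.  The Riemann hypothesis for `L(E/K, s)` holds if and only if the other `J^{d,n}` have only
real nonpositive zeros (or vanish).  If `Λ` has no zeros with `Re s > 1 + t` then the same is true for every positive
`κ > [K : ℚ] t / 2`, in particular for every `κ > 0` if the Riemann hypothesis for `L(E/K, s)` is true.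

The starting file `Pool.Agent.Results.MP_fb225e_nt.JensenRayClassFields` proves this for the curves `y² = x³ - D x` and the
ray class fields of `ℚ(i)`, with some constant `κ` which is not specified.  The constants are found by following the
zeros of the derivatives of `F` (`Pool.Agent.U156.SJ`, after the case of the Riemann zeta function in
`Pool.Agent.U762.JF` by helper762 and `Pool.Agent.U4.JC` by helper4, and the generic starting modules
`Pool.Agent.W355.GJ`, `Pool.Agent.W355.LC`, `Pool.Agent.H471R3.GJ`).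
-/

set_option autoImplicit false

namespace Pool.Agent.Results.MP_fb225e_nt.JensenSharpRangeAbelian

open Polynomial Complex UpperHalfPlane MatrixGroups CongruenceSubgroup
open scoped ComplexConjugate

/-! ### Elliptic curves over `ℚ` and abelian number fields -/

/-- The coefficient `a_p` of `E : y² = x³ + a x + b` at a prime `p ∤ 2 (4a³ + 27b²)`: `p` minus the
number of pairs `(x, y)` modulo `p` with `y² ≡ x³ + a x + b (mod p)`. -/
noncomputable def ap (a b : ℤ) (p : ℕ) : ℤ :=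
  (p : ℤ) - (((Finset.range p ×ˢ Finset.range p).filter
    (fun xy : ℕ × ℕ => (p : ℤ) ∣ (xy.2 : ℤ) ^ 2 -
      ((xy.1 : ℤ) ^ 3 + a * (xy.1 : ℤ) + b))).card : ℤ)

/-- The `n`-th Fourier coefficient of `f`. -/
noncomputable def coef {N : ℕ} (f : CuspForm (Gamma0 N : Subgroup (GL (Fin 2) ℝ)) 2) (n : ℕ) : ℂ :=
  (qExpansion 1 f).coeff n

/-- `f ∈ S_2(Γ₀(N))` is the newform of the elliptic curve `E : y² = x³ + a x + b` of conductor `N` and
root number `w`: the Fourier coefficients `c(n)` of `f` are real with `c(1) = 1`, they satisfy the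
Hecke relations `c(mn) = c(m) c(n)` for coprime `m`, `n` and `c(p^(j+2)) = c(p) c(p^(j+1)) - p c(p^j)`
(without the last term if `p ∣ N`), `f(-1/(Nτ)) = -w N τ² f(τ)`, `c(p) = a_p(E)` for all primes
`p ∤ 2 (4a³ + 27b²)`, `|c(p)| ≤ 2 √p` for all `p ∤ N` (Hasse) and `c(p) = 0, 1, -1` for `p ∣ N`.
By the modularity theorem (Wiles, Taylor-Wiles, Breuil-Conrad-Diamond-Taylor) it exists for every `E`. -/
structure IsFormOf (a b : ℤ) (N : ℕ) (f : CuspForm (Gamma0 N : Subgroup (GL (Fin 2) ℝ)) 2) (w : ℝ) :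
    Prop where
  one : coef f 1 = 1
  real : ∀ n, (coef f n).im = 0
  mul : ∀ m n : ℕ, Nat.Coprime m n → coef f (m * n) = coef f m * coef f n
  pow : ∀ p j : ℕ, p.Prime → coef f (p ^ (j + 2)) = coef f p * coef f (p ^ (j + 1)) -
      (if p ∣ N then 0 else (p : ℂ) * coef f (p ^ j))
  sign : w = 1 ∨ w = -1
  fricke : ∀ τ τ' : ℍ, (τ' : ℂ) * ((N : ℂ) * (τ : ℂ)) = -1 →
    f τ' = -(w : ℂ) * (N : ℂ) * (τ : ℂ) ^ 2 * f τ
  points : ∀ p : ℕ, p.Prime → ¬ (p : ℤ) ∣ 2 * (4 * a ^ 3 + 27 * b ^ 2) → coef f p = (ap a b p : ℂ)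
  good : ∀ p : ℕ, p.Prime → ¬ p ∣ N → ‖coef f p‖ ≤ 2 * Real.sqrt p
  bad : ∀ p : ℕ, p.Prime → p ∣ N → coef f p = 0 ∨ coef f p = 1 ∨ coef f p = -1

/-- The completed L-function of the twist of `E` by `χ` modulo `q`, for `Re s > 3/2`:
`(√N q / 2π)^s Γ(s) ∑ c(n) χ(n) n^(-s)`. -/
noncomputable def twist {N : ℕ} (f : CuspForm (Gamma0 N : Subgroup (GL (Fin 2) ℝ)) 2) {q : ℕ}
    (χ : DirichletCharacter ℂ q) (s : ℂ) : ℂ :=
  ((Real.sqrt N * q / (2 * Real.pi) : ℝ) : ℂ) ^ s * Complex.Gamma s *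
    ∑' n : ℕ, coef f (n + 1) * χ ((n + 1 : ℕ) : ZMod q) * ((n + 1 : ℕ) : ℂ) ^ (-s)

section
variable {M : ℕ} (G : Subgroup (DirichletCharacter ℂ M)) [Fintype G]

/-- `Λ = Λ(E/K, s)`, where `K` is the abelian number field with the group `G` of Dirichlet
characters: `Λ` is entire and, for large real part, it is the product over `χ` in `G` of the completed
L-functions of the twists of `E` by the primitive character associated with `χ`. -/
def IsCompleted {N : ℕ} (f : CuspForm (Gamma0 N : Subgroup (GL (Fin 2) ℝ)) 2) (Λ : ℂ → ℂ) : Prop :=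
  Differentiable ℂ Λ ∧ ∃ σ : ℝ, ∀ s : ℂ, σ ≤ s.re →
    Λ s = ∏ χ : G, twist f (χ : DirichletCharacter ℂ M).primitiveCharacter s

end

/-! ### Jensen polynomials -/

/-- `F(z) = Λ(1 + z)`. -/
noncomputable def F (Λ : ℂ → ℂ) (z : ℂ) : ℂ := Λ (1 + z)

/-- The coefficients `γ(k) = k! / (2k+r)! * F^(2k+r)(0)`, so that `F(z) = z^r ∑ γ(k) z^(2k) / k!` if `F` is
even and `r = 0` or `F` is odd and `r = 1`. -/
noncomputable def gamma (F : ℂ → ℂ) (r k : ℕ) : ℝ :=
  (k.factorial : ℝ) / ((2 * k + r).factorial : ℝ) * (iteratedDeriv (2 * k + r) F 0).re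

/-- The Jensen polynomial `J^{d,n}(X) = ∑_{j ≤ d} binom(d,j) γ(n+j) X^j` of degree `d` and shift `n`. -/
noncomputable def jensen (F : ℂ → ℂ) (r d n : ℕ) : ℝ[X] :=
  ∑ j ∈ Finset.range (d + 1), C ((d.choose j : ℝ) * gamma F r (n + j)) * X ^ j

/-- The polynomial has degree `d` and only real negative zeros. -/
def Negative (d : ℕ) (P : ℝ[X]) : Prop := P.natDegree = d ∧ ∀ z : ℂ, aeval z P = 0 → z.im = 0 ∧ z.re < 0

/-- The polynomial vanishes or has only real nonpositive zeros. -/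
def Nonpositive (P : ℝ[X]) : Prop := P = 0 ∨ ∀ z : ℂ, aeval z P = 0 → z.im = 0 ∧ z.re ≤ 0

/-- The statement for `κ`: for `n ≥ N` and `κ log d ≤ n` (that is, `d ≤ exp(n / κ)`) the Jensen polynomials `J^{d,n}` of
`F` have degree `d` and only real negative zeros, and the Riemann hypothesis for `Λ` holds if and only if the others
have only real nonpositive zeros (or vanish). -/
def Range (Λ : ℂ → ℂ) (r : ℕ) (κ : ℝ) : Prop := ∃ N : ℕ,
  (∀ n d : ℕ, N ≤ n → 1 ≤ d → κ * Real.log d ≤ n → Negative d (jensen (F Λ) r d n)) ∧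
  ((∀ s : ℂ, Λ s = 0 → s.re = 1) ↔
    ∀ n d : ℕ, 1 ≤ d → (n < N ∨ (n : ℝ) < κ * Real.log d) → Nonpositive (jensen (F Λ) r d n))

/-- **Main theorem.** Let `E : y² = x³ + a x + b` be an elliptic curve over `ℚ` with newform `f` of level
`N`, and let `K` be an abelian number field of conductor prime to `N`, given by its group `G` of Dirichlet
characters modulo `M`, so that `[K : ℚ]` is the order of `G`. -/
theorem result (a b : ℤ) (N : ℕ) [NeZero N] (f : CuspForm (Gamma0 N : Subgroup (GL (Fin 2) ℝ)) 2) (w : ℝ)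
    (_ : 4 * a ^ 3 + 27 * b ^ 2 ≠ 0) (hf : IsFormOf a b N f w)
    (M : ℕ) [NeZero M] (G : Subgroup (DirichletCharacter ℂ M)) [Fintype G] (hco : Nat.Coprime M N) :
    ∃ Λ : ℂ → ℂ, IsCompleted G f Λ ∧ (∀ Λ' : ℂ → ℂ, IsCompleted G f Λ' → Λ' = Λ) ∧
      (∃ W : ℂ, ‖W‖ = 1 ∧ ∀ s : ℂ, Λ (2 - s) = W * conj (Λ (conj s))) ∧
      (∀ s : ℂ, Λ s = 0 → |s.re - 1| ≤ 1 / 2) ∧ (∀ s : ℂ, Λ (conj s) = conj (Λ s)) ∧
      ∃ r : ℕ, r ≤ 1 ∧ (∀ z : ℂ, F Λ (-z) = (-1) ^ r * F Λ z) ∧
        (∀ κ : ℝ, (Fintype.card G : ℝ) / 4 < κ → Range Λ r κ) ∧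
        (∀ t κ : ℝ, 0 ≤ t → (∀ s : ℂ, Λ s = 0 → s.re ≤ 1 + t) → 0 < κ →
          (Fintype.card G : ℝ) * t / 2 < κ → Range Λ r κ) := by
  have hf' : Pool.Agent.W169.HF.IsForm N f w :=
    { one := hf.one
      real := hf.real
      mul := hf.mul
      pow := hf.pow
      sign := hf.sign
      fricke := hf.fricke
      good := hf.good
      bad := fun p hp hpN => by
        have h1 : (1 : ℝ) ≤ Real.sqrt p := by
          rw [Real.one_le_sqrt]
          exact_mod_cast hp.one_le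
        have h2 : ‖coef f p‖ ≤ 1 := by
          rcases hf.bad p hp hpN with h | h | h <;> simp [h]
        exact h2.trans h1 }
  obtain ⟨Λ, k1, k2, k3, k4, r, hr, k5, k6, k7⟩ := Pool.Agent.U156.SJ.cp_final (c := 1) (by simp)
    (Pool.Agent.U156.SJ.cp_ab G hf' hco)
  have hre : (1 : ℂ).re = 1 := Complex.one_re
  rw [hre] at k4 k6 k7
  have hreal : ∀ s : ℂ, Λ (conj s) = conj (Λ s) := Pool.Agent.U156.SJ.real_of k1 (σ := 3 / 2) fun s hs => by
    rw [k2 s hs, k2 (conj s) (by rw [Complex.conj_re]; exact hs)]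
    exact Pool.Agent.U156.SJ.prodE_conj G hf.real s
  have hF : Pool.Agent.U156.SJ.FC 1 Λ = F Λ := by
    funext z
    unfold Pool.Agent.U156.SJ.FC F
    rw [if_pos hreal]
  have hd : Pool.Agent.U156.SJ.dF (2 * Fintype.card G) Λ = 2 * Fintype.card G := by
    unfold Pool.Agent.U156.SJ.dF
    rw [if_pos hreal]
  rw [hF] at k5 k6 k7
  rw [hd] at k6
  have hmain : ∀ t κ : ℝ, 0 ≤ t → (∀ s : ℂ, Λ s = 0 → s.re ≤ 1 + t) → 0 < κ →
      (Fintype.card G : ℝ) * t / 2 < κ → Range Λ r κ := fun t κ ht hz hκ0 hκ =>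
    Pool.Agent.U156.SJ.crit_range k7 (k6 t κ ht hz hκ0 (by
      push_cast
      linarith))
  have hpos : (0 : ℝ) ≤ (Fintype.card G : ℝ) := Nat.cast_nonneg _
  have hc : ∃ σ : ℝ, ∀ s : ℂ, σ ≤ s.re → Λ s = ∏ χ : G, twist f (χ : DirichletCharacter ℂ M).primitiveCharacter s :=
    ⟨2, fun s hs => k2 s (by linarith)⟩
  refine ⟨Λ, ⟨k1, hc⟩, fun Λ' h' => Pool.Agent.W355.UN.Pk.uniq k1 h'.1 hc h'.2, ?_, k4, hreal, r, hr, k5,
    fun κ hκ => ?_, hmain⟩
  · obtain ⟨W, hW, h7⟩ := k3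
    refine ⟨W, hW, fun s => ?_⟩
    have h8 := h7 s
    rwa [mul_one] at h8
  · refine hmain (1 / 2) κ (by norm_num) (fun s hs => ?_) ?_ ?_
    · linarith [(abs_le.1 (k4 s hs)).2]
    · linarith
    · linarith

end Pool.Agent.Results.MP_fb225e_nt.JensenSharpRangeAbelian
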