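import Pool.Agent.U309.ZF.All4

/-!
# A zero-free region for `L(E/K, s)`, for every number field `K` with doubly transitive group

`E : y² = x³ + a x + b` is an elliptic curve over `ℚ` and `K` is a number field of degree `n` such that
`K ⊗ K` is the product of `K` and one further field `K₂`: the Galois group of the normal closure of `K`
acts doubly transitively on the `n` embeddings, as it is the case for almost all `K`.  Nothing is known
or assumed about the automorphy of `E` over `K`.  For every entire continuation of `L(E/K, s)` we prove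
the classical zero-free region of de la Vallée Poussin, Landau and Page, uniformly in `K`:

* `L(E/K, s)` has at most one zero in `Re s ≥ 3/2 - c / (Q + log(|Im s| + 3))`, where `Q` bounds the
  logarithm of the conductor, and this zero is real and simple; without the functional equation the
  same holds up to height `T`, if `Q` bounds `log |D_K|` and `log |F|`;
* among all these fields with the same `Q` at most one has such an exceptional zero: if `K`, `K'` are
  two of them and `K ⊗ K'` is a field, then one of the two functions has no zero at all in the region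
  (this uses that `L(E/ℚ, 3/2) ≠ 0`);
* with the (known) law of distribution of the `a_p / √p` there is no exceptional zero at all.

The constant `c > 0` depends on `E` and `n` only.  The first statement is proved here without any
hypothesis for all quadratic twists of `X_0(11)` and `X_0(14)`, the second for `X_0(11)` and `X_0(14)`.

Proof.  Let `λ_p = a_p / √p`, `π_p` the number of the primes of `K` of norm `p`, `c_p = cos(γ log p)`.  The
function `L(E/K, s)` corresponds to `λ_p π_p`.  Mean values of `λ_p²` are given by Rankin and Selberg,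
those of `π_p` and of `π_p² - π_p` by the Dedekind zeta functions of `K` and `K₂` (the order `𝓞 ⊗ 𝓞` and its
index; `|D_{K₂}| ≤ |D_K|^(2n)`).  For a zero `3/2 - η + iγ`, `γ ≠ 0`, or two real zeros, the positive
expression `(λ + π c - c/(8n))² + c² π (n - π)/(4n²)` gives a contradiction; possible exceptional
zeros of the two zeta functions are harmless, because all coefficients are nonnegative.  For real zeros
of two fields: `(λ + π + π' - 2)²`; here lower bounds for the means of `π` and `π'` are needed, and these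
follow from the supposed zeros themselves: `|λ| ≤ 2` shows that `ζ_K` has no zero very close to `1`.  With
the law of distribution: `g(λ) + (2/3)(π² - π) + 2λπ ≥ 0` for `π = 0, 1, 2, ...`,
`g(t) = max(0, -2t, -4t - 4/3, -6t - 4)`, and the mean of `g(λ)` is less than `4/3`.

Authors: helper309 (statement, proof, assembly), helper899 (`L(f, s)` near the edge; correction of the
first version), helper61, helper750, helper433, helper111 (Dedekind zeta functions), helper263
(Rankin-Selberg), helper109, helper891, helper395 (the tensor square), helper643, helper402, helper796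
(Euler product), helper901 (`L(f, s)`), helper165 (growth), helper333, helper278, helper27 (the
distribution laws), helper356, helper637, helper894 (lower bounds for Dedekind zeta functions),
helper774, helper446 (the tensor product), helper122 (the inequality for two fields), helper934,
helper140, helper402, helper774, helper2 (`L(f, 3/2) ≠ 0`).  The newforms of the twists of `X_0(11)` and `X_0(14)`
are taken from the library (`Pool.Agent.Y812`).
-/

set_option autoImplicit false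

open NumberField IsDedekindDomain UpperHalfPlane MatrixGroups CongruenceSubgroup Filter Topology
open scoped TensorProduct

namespace Pool.Agent.Results.MP_fb225e_nt.ZeroFreeRegion

/-! ### The L-function of `E` over `K` -/

section field

variable {K : Type} [Field K] [NumberField K]

/-- `q_v`, the number of elements of the residue field. -/
noncomputable def q (v : HeightOneSpectrum (𝓞 K)) : ℝ := (Ideal.absNorm v.asIdeal : ℝ)

/-- `a_v = q_v + 1 - #E(k_v)` for the curve `y² = x³ + a x + b` over the residue field `k_v`: `q_v` minus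
the number of the affine points. -/
noncomputable def av (a b : ℤ) (v : HeightOneSpectrum (𝓞 K)) : ℝ :=
  q v - (Nat.card {P : (𝓞 K ⧸ v.asIdeal) × (𝓞 K ⧸ v.asIdeal) //
    P.2 ^ 2 = P.1 ^ 3 + (a : 𝓞 K ⧸ v.asIdeal) * P.1 + (b : 𝓞 K ⧸ v.asIdeal)} : ℝ)

/-- The parameters of the Euler factors of `L(E/K, s)`, `E : y² = x³ + a x + b`: at the primes
`v ∤ 2 (4a³ + 27b²)`, `α_{v,0} + α_{v,1} = a_v` and `α_{v,0} α_{v,1} = q_v`; at all primes the Euler factor
has real coefficients, and `|α_{v,j}| ≤ √q_v` (Hasse; at a prime of bad reduction the parameters are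
`a_v` and `0` with `a_v = 0, 1, -1`). -/
structure IsParameter (a b : ℤ) (α : HeightOneSpectrum (𝓞 K) → Fin 2 → ℂ) : Prop where
  sum : ∀ v : HeightOneSpectrum (𝓞 K), (2 * (4 * a ^ 3 + 27 * b ^ 2) : 𝓞 K) ∉ v.asIdeal →
    α v 0 + α v 1 = av a b v
  prod : ∀ v : HeightOneSpectrum (𝓞 K), (2 * (4 * a ^ 3 + 27 * b ^ 2) : 𝓞 K) ∉ v.asIdeal →
    α v 0 * α v 1 = q v
  real : ∀ v : HeightOneSpectrum (𝓞 K), (α v 0 + α v 1).im = 0 ∧ (α v 0 * α v 1).im = 0
  norm : ∀ (v : HeightOneSpectrum (𝓞 K)) (j : Fin 2), ‖α v j‖ ≤ √(q v)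

/-- `F` is the entire continuation of `L(E/K, s)`. -/
def IsContinuation (α : HeightOneSpectrum (𝓞 K) → Fin 2 → ℂ) (F : ℂ → ℂ) : Prop :=
  Differentiable ℂ F ∧ ∀ s : ℂ, 3 / 2 < s.re →
    F s = ∏' v : HeightOneSpectrum (𝓞 K), ∏ j : Fin 2, (1 - α v j * (q v : ℂ) ^ (-s))⁻¹

end field

/-- The functional equation: `Λ` is entire, `Λ(s) = A^(s/2) ((2π)^(-s) Γ(s))^n F(s)` for `Re s > 0`, and
`Λ(s) = ε Λ(2 - s)` for all `s`. -/
def IsCompleted (A : ℝ) (n : ℕ) (ε : ℂ) (F Λ : ℂ → ℂ) : Prop :=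
  Differentiable ℂ Λ ∧ (∀ s : ℂ, 0 < s.re → Λ s = (A : ℂ) ^ (s / 2) *
    (((2 * Real.pi : ℝ) : ℂ) ^ (-s) * Complex.Gamma s) ^ n * F s) ∧
    ∀ s : ℂ, Λ s = ε * Λ (2 - s)

/-- `F` is of finite order. -/
def FiniteOrder (F : ℂ → ℂ) : Prop :=
  ∃ (C : ℝ) (k : ℕ), ∀ s : ℂ, ‖F s‖ ≤ Real.exp (C * (1 + ‖s‖) ^ k)

/-- `K ⊗ K` is the product of `K` and one further field (equivalently: the Galois group of the normal
closure of `K` acts doubly transitively on the embeddings of `K`). -/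
def DoublyTransitive (K : Type) [Field K] [NumberField K] : Prop :=
  ∃ (K₂ : Type) (_ : Field K₂) (_ : NumberField K₂), Nonempty ((K ⊗[ℚ] K) ≃ₐ[ℚ] (K × K₂))

/-- `K ⊗ K'` is a field. -/
def TensorIsField (K K' : Type) [Field K] [NumberField K] [Field K'] [NumberField K'] : Prop :=
  ∃ (L : Type) (_ : Field L) (_ : NumberField L), Nonempty ((K ⊗[ℚ] K') ≃ₐ[ℚ] L)

/-! ### The curve over `ℚ` -/

/-- The coefficient `a_p` of `E : y² = x³ + a x + b` at a prime `p ∤ 2 (4a³ + 27b²)`: `p` minus the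
number of pairs `(x, y)` modulo `p` with `y² ≡ x³ + a x + b (mod p)`. -/
noncomputable def ap (a b : ℤ) (p : ℕ) : ℤ :=
  (p : ℤ) - (((Finset.range p ×ˢ Finset.range p).filter
    (fun xy : ℕ × ℕ => (p : ℤ) ∣ (xy.2 : ℤ) ^ 2 -
      ((xy.1 : ℤ) ^ 3 + a * (xy.1 : ℤ) + b))).card : ℤ)

/-- The `n`-th Fourier coefficient of `f`. -/
noncomputable def coef {N : ℕ} (f : CuspForm (Gamma0 N : Subgroup (GL (Fin 2) ℝ)) 2) (n : ℕ) : ℂ :=
  (qExpansion 1 f).coeff n

/-- `f ∈ S_2(Γ₀(N))` is the newform of the elliptic curve `E : y² = x³ + a x + b` of conductor `N` and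
root number `w`: the Fourier coefficients `c(n)` of `f` are real with `c(1) = 1`, they satisfy the
Hecke relations `c(mn) = c(m) c(n)` for coprime `m`, `n` and `c(p^(j+2)) = c(p) c(p^(j+1)) - p c(p^j)`
(without the last term if `p ∣ N`), `f(-1/(Nτ)) = -w N τ² f(τ)`, `c(p) = a_p(E)` for all primes
`p ∤ 2 (4a³ + 27b²)`, `|c(p)| ≤ 2 √p` for all `p ∤ N` (Hasse) and `c(p) = 0, 1, -1` for `p ∣ N`. -/
structure IsFormOf (a b : ℤ) (N : ℕ) (f : CuspForm (Gamma0 N : Subgroup (GL (Fin 2) ℝ)) 2) (w : ℝ) :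
    Prop where
  one : coef f 1 = 1
  real : ∀ n, (coef f n).im = 0
  mul : ∀ m n : ℕ, Nat.Coprime m n → coef f (m * n) = coef f m * coef f n
  pow : ∀ p j : ℕ, p.Prime → coef f (p ^ (j + 2)) = coef f p * coef f (p ^ (j + 1)) -
      (if p ∣ N then 0 else (p : ℂ) * coef f (p ^ j))
  sign : w = 1 ∨ w = -1
  fricke : ∀ τ τ' : ℍ, (τ' : ℂ) * ((N : ℂ) * (τ : ℂ)) = -1 →
    f τ' = -(w : ℂ) * (N : ℂ) * (τ : ℂ) ^ 2 * f τ
  points : ∀ p : ℕ, p.Prime → ¬ (p : ℤ) ∣ 2 * (4 * a ^ 3 + 27 * b ^ 2) → coef f p = (ap a b p : ℂ)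
  good : ∀ p : ℕ, p.Prime → ¬ p ∣ N → ‖coef f p‖ ≤ 2 * Real.sqrt p
  bad : ∀ p : ℕ, p.Prime → p ∣ N → coef f p = 0 ∨ coef f p = 1 ∨ coef f p = -1

/-- `L` is the entire continuation of the Dirichlet series `L(f, s)`. -/
def IsL {N : ℕ} (f : CuspForm (Gamma0 N : Subgroup (GL (Fin 2) ℝ)) 2) (L : ℂ → ℂ) : Prop :=
  Differentiable ℂ L ∧ ∀ s : ℂ, 3 / 2 < s.re → HasSum (fun n : ℕ => coef f n * (n : ℂ) ^ (-s)) (L s)

/-- The mean of `h(p)` over the primes `p ≤ x`. -/
noncomputable def primeMean (h : ℕ → ℝ) (x : ℕ) : ℝ :=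
  (∑ p ∈ (Finset.range (x + 1)).filter Nat.Prime, h p) /
    (((Finset.range (x + 1)).filter Nat.Prime).card : ℝ)

/-- The Sato–Tate law for `E : y² = x³ + a x + b` (a theorem for every `E` without complex
multiplication): for every continuous `g` the mean of `g(a_p / √p)` over the primes `p ≤ x` tends to
`(1/2π) ∫_{-2}^{2} g(t) √(4 - t²) dt`. -/
def SatoTate (a b : ℤ) : Prop := ∀ g : ℝ → ℝ, Continuous g →
  Tendsto (primeMean fun p => g ((ap a b p : ℝ) / √(p : ℝ))) atTop
    (𝓝 ((2 * Real.pi)⁻¹ * ∫ t in (-2 : ℝ)..2, g t * √(4 - t ^ 2)))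

/-- The law for `E : y² = x³ + a x + b` with complex multiplication (a theorem of Hecke and Deuring): for
every continuous `g` the mean of `g(a_p / √p)` over the primes `p ≤ x` tends to
`g(0)/2 + (1/2π) ∫_0^π g(2 cos θ) dθ`. -/
def CMLaw (a b : ℤ) : Prop := ∀ g : ℝ → ℝ, Continuous g →
  Tendsto (primeMean fun p => g ((ap a b p : ℝ) / √(p : ℝ))) atTop
    (𝓝 (g 0 / 2 + (2 * Real.pi)⁻¹ * ∫ θ in (0 : ℝ)..Real.pi, g (2 * Real.cos θ)))

/-! ### The zeros -/

/-- In `S` the function `F` has at most one zero, and this is real and simple. -/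
def AtMostOneReal (F : ℂ → ℂ) (S : Set ℂ) : Prop :=
  ∀ z ∈ S, F z = 0 → z.im = 0 ∧ deriv F z ≠ 0 ∧ ∀ z' ∈ S, F z' = 0 → z' = z

/-- `F` has no zero in `S`. -/
def NoZero (F : ℂ → ℂ) (S : Set ℂ) : Prop := ∀ z ∈ S, F z ≠ 0

/-- `|Im s| ≤ T`, `Re s ≥ 3/2 - c / (Q + log(T + 3))` -/
def zone₁ (c Q T : ℝ) : Set ℂ := {s : ℂ | |s.im| ≤ T ∧ 3 / 2 - c / (Q + Real.log (T + 3)) ≤ s.re}

/-- `Re s ≥ 3/2 - c / (Q + log(|Im s| + 3))` -/
def zone₂ (c Q : ℝ) : Set ℂ := {s : ℂ | 3 / 2 - c / (Q + Real.log (|s.im| + 3)) ≤ s.re}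

/-- `Q ≥ 1`, `log |D_K| ≤ Q` and `|F| ≤ e^Q` for `|Im s| ≤ T + 3`, `|Re s - 5/2| ≤ 5/2`. -/
def Size₁ (K : Type) [Field K] [NumberField K] (F : ℂ → ℂ) (Q T : ℝ) : Prop :=
  1 ≤ Q ∧ Real.log |(NumberField.discr K : ℝ)| ≤ Q ∧
    ∀ s : ℂ, |s.im| ≤ T + 3 → |s.re - 5 / 2| ≤ 5 / 2 → ‖F s‖ ≤ Real.exp Q

/-- `F` is of finite order and has the functional equation with conductor `A ≥ 1` and sign `±1`, and
`log A + log |D_K| ≤ Q`. -/
def Size₂ (K : Type) [Field K] [NumberField K] (n : ℕ) (F : ℂ → ℂ) (Q : ℝ) : Prop :=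
  FiniteOrder F ∧ ∃ (A : ℝ) (ε : ℂ) (Λ : ℂ → ℂ), 1 ≤ A ∧ (ε = 1 ∨ ε = -1) ∧ IsCompleted A n ε F Λ ∧
    Real.log A + Real.log |(NumberField.discr K : ℝ)| ≤ Q

/-- **The zero-free region** for `L(E/K, s)`, `E : y² = x³ + a x + b`, uniformly for all number fields
`K` of degree `n` with doubly transitive group: at most one zero, real and simple; none if the
`a_p / √p` satisfy the law of Sato and Tate or the law for curves with complex multiplication. -/
def ZeroFree (a b : ℤ) : Prop := ∀ n : ℕ, ∃ c : ℝ, 0 < c ∧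
  ∀ (K : Type) [Field K] [NumberField K], Module.finrank ℚ K = n → DoublyTransitive K →
    ∀ (α : HeightOneSpectrum (𝓞 K) → Fin 2 → ℂ) (F : ℂ → ℂ), IsParameter a b α → IsContinuation α F →
      (∀ T Q : ℝ, 0 ≤ T → Size₁ K F Q T → AtMostOneReal F (zone₁ c Q T) ∧
        ((SatoTate a b ∨ CMLaw a b) → NoZero F (zone₁ c Q T))) ∧
      ∀ Q : ℝ, Size₂ K n F Q → AtMostOneReal F (zone₂ c Q) ∧
        ((SatoTate a b ∨ CMLaw a b) → NoZero F (zone₂ c Q))

/-- **At most one exceptional field**: if `K` and `K'` have degree `n` and doubly transitive groups and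
`K ⊗ K'` is a field, then one of the two functions has no zero in the region. -/
def OneField (a b : ℤ) : Prop := ∀ n : ℕ, ∃ c : ℝ, 0 < c ∧
  ∀ (K K' : Type) [Field K] [NumberField K] [Field K'] [NumberField K'],
    Module.finrank ℚ K = n → Module.finrank ℚ K' = n → DoublyTransitive K → DoublyTransitive K' →
    TensorIsField K K' →
    ∀ (α : HeightOneSpectrum (𝓞 K) → Fin 2 → ℂ) (F : ℂ → ℂ)
      (α' : HeightOneSpectrum (𝓞 K') → Fin 2 → ℂ) (F' : ℂ → ℂ),
      IsParameter a b α → IsContinuation α F → IsParameter a b α' → IsContinuation α' F' →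
      (∀ T Q : ℝ, 0 ≤ T → Size₁ K F Q T → Size₁ K' F' Q T →
        NoZero F (zone₁ c Q T) ∨ NoZero F' (zone₁ c Q T)) ∧
      ∀ Q : ℝ, Size₂ K n F Q → Size₂ K' n F' Q → NoZero F (zone₂ c Q) ∨ NoZero F' (zone₂ c Q)

/-! ### Proofs -/

theorem conv {a b : ℤ} {N : ℕ} {f : CuspForm (Gamma0 N : Subgroup (GL (Fin 2) ℝ)) 2} {w : ℝ}
    (hf : IsFormOf a b N f w) : Pool.Agent.U309.ZF.IsFormOf a b N f w :=
  { one := hf.one
    real := hf.real
    mul := hf.mul
    pow := hf.pow
    sign := hf.sign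
    fricke := hf.fricke
    points := hf.points
    good := hf.good
    bad := hf.bad }

theorem convα {K : Type} [Field K] [NumberField K] {a b : ℤ}
    {α : HeightOneSpectrum (𝓞 K) → Fin 2 → ℂ} (hα : IsParameter a b α) :
    Pool.Agent.U309.ZF.IsParameter a b α :=
  { sum := hα.sum
    prod := hα.prod
    real := hα.real
    norm := hα.norm }

theorem zeroFree {a b : ℤ} {N : ℕ} [NeZero N] {f : CuspForm (Gamma0 N : Subgroup (GL (Fin 2) ℝ)) 2}
    {w : ℝ} (hab : 4 * a ^ 3 + 27 * b ^ 2 ≠ 0) (hf : Pool.Agent.U309.ZF.IsFormOf a b N f w) :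
    ZeroFree a b := by
  intro n
  obtain ⟨c, hc, k⟩ := Pool.Agent.U309.ZF.main a b N f w hab hf n
  refine ⟨c / 2, by positivity, fun K _ _ hn hDT α F hα hF => ?_⟩
  obtain ⟨k1, k2⟩ := k K hn hDT α F (convα hα) hF
  have hld : 0 ≤ Real.log |(NumberField.discr K : ℝ)| := Pool.Agent.U309.ZF.ld_nonneg K
  constructor
  · rintro T Q hT ⟨hQ, hD, hbox⟩
    have hT3 : 0 ≤ Real.log (T + 3) := Real.log_nonneg (by linarith)
    have sub : zone₁ (c / 2) Q T ⊆ Pool.Agent.U309.ZF.zone₁ c Q (Pool.Agent.U309.ZF.ld K) T := by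
      intro z hz
      refine ⟨hz.1, le_trans ?_ hz.2⟩
      have h1 : c / 2 / (Q + Real.log (T + 3)) ≤
          c / (Q + Real.log |(NumberField.discr K : ℝ)| + Real.log (T + 3)) := by
        rw [div_le_div_iff₀ (by linarith) (by linarith)]
        nlinarith
      change 3 / 2 - c / (Q + Real.log |(NumberField.discr K : ℝ)| + Real.log (T + 3)) ≤ _
      linarith
    obtain ⟨h1, h2⟩ := k1 T Q hT hQ hbox
    exact ⟨fun z hz h0 => ⟨(h1 z (sub hz) h0).1, (h1 z (sub hz) h0).2.1,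
      fun z' hz' h0' => (h1 z (sub hz) h0).2.2 z' (sub hz') h0'⟩, fun hl z hz => h2 hl z (sub hz)⟩
  · rintro Q ⟨ho, A, ε, Λ, hA, hε, hΛ, hQ⟩
    have hlA : 0 ≤ Real.log A := Real.log_nonneg hA
    have sub : zone₂ (c / 2) Q ⊆ Pool.Agent.U309.ZF.zone₂ c A (Pool.Agent.U309.ZF.ld K) := by
      intro z hz
      have hz2 : 3 / 2 - c / 2 / (Q + Real.log (|z.im| + 3)) ≤ z.re := hz
      have h := Pool.Agent.U309.ZF.log3 z.im
      have h1 : c / 2 / (Q + Real.log (|z.im| + 3)) ≤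
          c / (Real.log A + Real.log |(NumberField.discr K : ℝ)| + Real.log (|z.im| + 3)) := by
        rw [div_le_div_iff₀ (by linarith) (by linarith)]
        nlinarith
      change 3 / 2 - c / (Real.log A + Real.log |(NumberField.discr K : ℝ)| +
        Real.log (|z.im| + 3)) ≤ z.re
      linarith
    obtain ⟨h1, h2⟩ := k2 A ε Λ hA hε ho hΛ
    exact ⟨fun z hz h0 => ⟨(h1 z (sub hz) h0).1, (h1 z (sub hz) h0).2.1,
      fun z' hz' h0' => (h1 z (sub hz) h0).2.2 z' (sub hz') h0'⟩, fun hl z hz => h2 hl z (sub hz)⟩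

theorem oneField {a b : ℤ} {N : ℕ} [NeZero N] {f : CuspForm (Gamma0 N : Subgroup (GL (Fin 2) ℝ)) 2}
    {w : ℝ} (hab : 4 * a ^ 3 + 27 * b ^ 2 ≠ 0) (hf : Pool.Agent.U309.ZF.IsFormOf a b N f w)
    (hE : Pool.Agent.U309.ZF.EdgeOK f) : OneField a b := by
  intro n
  obtain ⟨c, hc, k⟩ := Pool.Agent.U309.ZF.main4 a b N f w hab hf hE n
  refine ⟨c, hc, fun K K' _ _ _ _ hn hn' hD hD' hL α F α' F' hα hF hα' hF' => ?_⟩
  obtain ⟨L, _, _, e⟩ := hL
  obtain ⟨k1, k2⟩ := k K K' L hn hn' hD hD' e α F α' F' (convα hα) hF (convα hα') hF'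
  constructor
  · rintro T Q hT ⟨hQ, hD, hb⟩ ⟨-, hD', hb'⟩
    exact k1 T Q hT hQ hD hD' hb hb'
  · rintro Q ⟨ho, A, ε, Λ, hA, hε, hΛ, hQ⟩ ⟨ho', A', ε', Λ', hA', hε', hΛ', hQ'⟩
    exact k2 A A' Q ε ε' Λ Λ' hA hA' hε hε' ho ho' hΛ hΛ' hQ hQ'

/-- **Main theorem.** Let `E : y² = x³ + a x + b` be an elliptic curve over `ℚ` with newform `f`.  Then
`L(E/K, s)` has the classical zero-free region, uniformly in `K`; if `L(f, 3/2) ≠ 0` (a theorem for
every newform), then at most one field is exceptional.  For all quadratic twists of `X_0(11)` and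
`X_0(14)` the first statement holds without any hypothesis, for `X_0(11)` and `X_0(14)` both do. -/
theorem result :
    (∀ (a b : ℤ) (N : ℕ) [NeZero N] (f : CuspForm (Gamma0 N : Subgroup (GL (Fin 2) ℝ)) 2) (w : ℝ),
      4 * a ^ 3 + 27 * b ^ 2 ≠ 0 → IsFormOf a b N f w →
        ZeroFree a b ∧ ((∀ L : ℂ → ℂ, IsL f L → L (3 / 2) ≠ 0) → OneField a b)) ∧
    (∀ g : ℤ, g ≠ 0 → ZeroFree (-13392 * g ^ 2) (-1080432 * g ^ 3) ∧
      ZeroFree (5805 * g ^ 2) (-285714 * g ^ 3)) ∧
    OneField (-13392) (-1080432) ∧ OneField 5805 (-285714) := by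
  refine ⟨fun a b N _ f w hab hf => ⟨zeroFree hab (conv hf), fun hL => ?_⟩, fun g hg => ⟨?_, ?_⟩, ?_, ?_⟩
  · exact oneField hab (conv hf) (Pool.Agent.U309.ZF.edge a b N f w hab (conv hf) hL)
  · obtain ⟨N, hN, f, w, hf⟩ := Pool.Agent.U309.ZFTw.form11 g hg
    refine zeroFree ?_ hf
    have h6 : g ^ 6 ≠ 0 := pow_ne_zero 6 hg
    have e : 4 * (-13392 * g ^ 2) ^ 3 + 27 * (-1080432 * g ^ 3) ^ 2 =
        (4 * (-13392) ^ 3 + 27 * (-1080432) ^ 2) * g ^ 6 := by ring
    rw [e]
    exact mul_ne_zero (by norm_num) h6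
  · obtain ⟨N, hN, f, w, hf⟩ := Pool.Agent.U309.ZFTw.form14 g hg
    refine zeroFree ?_ hf
    have h6 : g ^ 6 ≠ 0 := pow_ne_zero 6 hg
    have e : 4 * (5805 * g ^ 2) ^ 3 + 27 * (-285714 * g ^ 3) ^ 2 =
        (4 * 5805 ^ 3 + 27 * (-285714) ^ 2) * g ^ 6 := by ring
    rw [e]
    exact mul_ne_zero (by norm_num) h6
  · obtain ⟨w, hf⟩ := Pool.Agent.U309.ZF.base11
    exact oneField (by norm_num) hf (Pool.Agent.U309.ZF.edge11 w hf)
  · obtain ⟨w, hf⟩ := Pool.Agent.U309.ZF.base14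
    exact oneField (by norm_num) hf (Pool.Agent.U309.ZF.edge14 w hf)

end Pool.Agent.Results.MP_fb225e_nt.ZeroFreeRegion
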